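import Mathlib

namespace Pool.Agent.Results.MP_61cfb3_pr.GeometricNotMinimax

open Set ENNReal

/-- a trajectory: starts at `0`, speed at most one (continuity is implied) -/
def IsTrajectory (S : ℝ → ℝ) : Prop :=
  S 0 = 0 ∧ ∀ s t : ℝ, 0 ≤ s → 0 ≤ t → |S s - S t| ≤ |s - t|

/-- `t` is the left endpoint of a connected component of `S⁻¹(H)` (in `[0, ∞)`) -/
def VisitStart (S : ℝ → ℝ) (H t : ℝ) : Prop :=
  0 ≤ t ∧ S t = H ∧ ∀ s, 0 ≤ s → s < t → ∃ r ∈ Icc s t, S r ≠ H

/-- each point `H ≠ 0` is visited finitely often in bounded time -/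
def Admissible (S : ℝ → ℝ) : Prop :=
  ∀ H : ℝ, H ≠ 0 → ∀ B : ℝ, {t | VisitStart S H t ∧ t ≤ B}.Finite

/-- time of the `(i+1)`-st visit: the least time by which `i + 1` visits have started
(`∞` if there are fewer visits) -/
noncomputable def visitTime (S : ℝ → ℝ) (H : ℝ) (i : ℕ) : ℝ≥0∞ :=
  ⨅ (B : ℝ) (_ : ((i + 1 : ℕ) : ℕ∞) ≤ {t | VisitStart S H t ∧ t ≤ B}.encard), ENNReal.ofReal B

/-- expected capture time -/
noncomputable def expTime (p : ℝ) (S : ℝ → ℝ) (H : ℝ) : ℝ≥0∞ :=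
  ∑' i : ℕ, ENNReal.ofReal ((1 - p) ^ i * p) * visitTime S H i

/-- guaranteed (normalised) cost `v(S)` -/
noncomputable def v (p : ℝ) (S : ℝ → ℝ) : ℝ≥0∞ :=
  ⨆ (H : ℝ) (_ : H ≠ 0), expTime p S H / ENNReal.ofReal |H|

section general

theorem visitTime_le {S : ℝ → ℝ} {H : ℝ} {τ : ℕ → ℝ} (hmono : StrictMono τ)
    (hv : ∀ n, VisitStart S H (τ n)) (i : ℕ) : visitTime S H i ≤ ENNReal.ofReal (τ i) := by
  unfold visitTime
  refine iInf₂_le (τ i) ?_
  have h1 : (((Finset.range (i + 1)).image τ : Finset ℝ) : Set ℝ) ⊆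
      {t | VisitStart S H t ∧ t ≤ τ i} := by
    intro t ht
    simp only [Finset.coe_image, Set.mem_image, Finset.coe_range, Set.mem_Iio] at ht
    obtain ⟨j, hj, rfl⟩ := ht
    exact ⟨hv j, hmono.monotone (by omega)⟩
  refine le_trans ?_ (Set.encard_le_encard h1)
  rw [Set.encard_coe_eq_coe_finsetCard, Finset.card_image_of_injective _ hmono.injective,
    Finset.card_range]

theorem expTime_le {p : ℝ} (hp0 : 0 < p) (hp1 : p < 1) {S : ℝ → ℝ} {H : ℝ} {τ : ℕ → ℝ}
    (hmono : StrictMono τ) (hv : ∀ n, VisitStart S H (τ n)) {s : ℝ}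
    (hs : HasSum (fun n => (1 - p) ^ n * p * τ n) s) : expTime p S H ≤ ENNReal.ofReal s := by
  have hq : 0 ≤ 1 - p := by linarith
  have hnn : ∀ n, 0 ≤ (1 - p) ^ n * p * τ n := by
    intro n
    have := (hv n).1
    positivity
  rw [← hs.tsum_eq, ENNReal.ofReal_tsum_of_nonneg hnn hs.summable]
  unfold expTime
  refine ENNReal.tsum_le_tsum (fun n => ?_)
  rw [ENNReal.ofReal_mul (p := (1 - p) ^ n * p) (by positivity)]
  exact mul_le_mul_right (visitTime_le hmono hv n) _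

theorem ratio_le {p : ℝ} {S : ℝ → ℝ} {H c s : ℝ} (hH : H ≠ 0)
    (h : expTime p S H ≤ ENNReal.ofReal s) (hs : s ≤ c * |H|) :
    expTime p S H / ENNReal.ofReal |H| ≤ ENNReal.ofReal c := by
  have hpos : 0 < |H| := abs_pos.mpr hH
  rw [ENNReal.div_le_iff (by simpa using hpos) ENNReal.ofReal_ne_top,
    ← ENNReal.ofReal_mul' hpos.le]
  exact le_trans h (ENNReal.ofReal_le_ofReal hs)

end general

section construction

variable (a b d κ : ℝ)

/-- the unit excursion: out to `b (1 + d)`, back to `b`, out to `1`, back to `0` -/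
noncomputable def E (u : ℝ) : ℝ :=
  min (max (min u (2 * b * (1 + d) - u)) (u - 2 * b * d)) (2 + 2 * b * d - u)

theorem E_lip (u w : ℝ) : |E b d u - E b d w| ≤ |u - w| := by
  unfold E
  have h1 : ∀ x y z t : ℝ, |min x y - min z t| ≤ max |x - z| |y - t| := abs_min_sub_min_le_max
  have h2 : ∀ x y z t : ℝ, |max x y - max z t| ≤ max |x - z| |y - t| := abs_max_sub_max_le_max
  refine le_trans (h1 _ _ _ _) (max_le (le_trans (h2 _ _ _ _) (max_le (le_trans (h1 _ _ _ _)
    (max_le le_rfl ?_)) ?_)) ?_)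
  · rw [show 2 * b * (1 + d) - u - (2 * b * (1 + d) - w) = -(u - w) by ring, abs_neg]
  · rw [show u - 2 * b * d - (w - 2 * b * d) = u - w by ring]
  · rw [show 2 + 2 * b * d - u - (2 + 2 * b * d - w) = -(u - w) by ring, abs_neg]

theorem E_mem (u : ℝ) : E b d u = u ∨ E b d u = 2 * b * (1 + d) - u ∨ E b d u = u - 2 * b * d ∨
    E b d u = 2 + 2 * b * d - u := by
  unfold E
  rcases min_choice (max (min u (2 * b * (1 + d) - u)) (u - 2 * b * d)) (2 + 2 * b * d - u)
    with h | h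
  · rcases max_choice (min u (2 * b * (1 + d) - u)) (u - 2 * b * d) with h' | h'
    · rcases min_choice u (2 * b * (1 + d) - u) with h'' | h''
      · left; rw [h, h', h'']
      · right; left; rw [h, h', h'']
    · right; right; left; rw [h, h']
  · right; right; right; exact h

variable {a b d κ}

theorem E1 (hb : 0 < b) (hb1 : b < 1) (hd : 0 < d) {u : ℝ} (h : u ≤ b * (1 + d)) (h1 : u ≤ 1) :
    E b d u = u := by
  unfold E
  have : 0 < b * d := mul_pos hb hd
  rw [min_eq_left (a := u) (b := 2 * b * (1 + d) - u) (by linarith),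
    max_eq_left (a := u) (by linarith), min_eq_left (a := u) (by linarith)]

theorem E2 (hb : 0 < b) (hb1 : b < 1) (hd : 0 < d) {u : ℝ} (h : b * (1 + d) ≤ u)
    (h1 : u ≤ b * (1 + 2 * d)) : E b d u = 2 * b * (1 + d) - u := by
  unfold E
  have : 0 < b * d := mul_pos hb hd
  rw [min_eq_right (a := u) (b := 2 * b * (1 + d) - u) (by linarith),
    max_eq_left (a := 2 * b * (1 + d) - u) (by linarith),
    min_eq_left (a := 2 * b * (1 + d) - u) (by linarith)]

theorem E3 (hb : 0 < b) (hb1 : b < 1) (hd : 0 < d) {u : ℝ} (h : b * (1 + 2 * d) ≤ u)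
    (h1 : u ≤ 1 + 2 * b * d) : E b d u = u - 2 * b * d := by
  unfold E
  have : 0 < b * d := mul_pos hb hd
  rw [min_eq_right (a := u) (b := 2 * b * (1 + d) - u) (by linarith),
    max_eq_right (a := 2 * b * (1 + d) - u) (by linarith),
    min_eq_left (a := u - 2 * b * d) (by linarith)]

theorem E4 (hb : 0 < b) (hb1 : b < 1) (hd : 0 < d) {u : ℝ} (h : 1 + 2 * b * d ≤ u) :
    E b d u = 2 + 2 * b * d - u := by
  unfold E
  have : 0 < b * d := mul_pos hb hd
  rw [min_eq_right (a := u) (by linarith), max_eq_right (by linarith), min_eq_right (by linarith)]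

theorem E_nonneg (hb : 0 < b) (hd : 0 < d) {u : ℝ} (h : 0 ≤ u) (h1 : u ≤ 2 + 2 * b * d) :
    0 ≤ E b d u := by
  unfold E
  have : 0 < b * d := mul_pos hb hd
  refine le_min ?_ (by linarith)
  rcases le_total u (2 * b * d) with h2 | h2
  · exact le_max_of_le_left (le_min h (by linarith))
  · exact le_max_of_le_right (by linarith)

theorem E_le (hb : 0 < b) (hd : 0 < d) (u : ℝ) : E b d u ≤ u := by
  unfold E
  have : 0 < b * d := mul_pos hb hd
  exact le_trans (min_le_left _ _) (max_le (min_le_left _ _) (by linarith))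

theorem E_le' (u : ℝ) : E b d u ≤ 2 + 2 * b * d - u := min_le_right _ _

theorem exists_idx (ha : 1 < a) (hκ : 0 < κ) (t : ℝ) (ht : 0 < t) :
    ∃ n : ℤ, κ * a ^ n ≤ t ∧ t < κ * a ^ (n + 1) := by
  obtain ⟨n, hn1, hn2⟩ := exists_mem_Ico_zpow (div_pos ht hκ) ha
  refine ⟨n, ?_, ?_⟩
  · rw [le_div_iff₀ hκ] at hn1; linarith
  · rw [div_lt_iff₀ hκ] at hn2; linarith

theorem idx_le (ha : 1 < a) (hκ : 0 < κ) {s t : ℝ} {n m : ℤ} (hst : s ≤ t)
    (hn : κ * a ^ n ≤ s) (hm : t < κ * a ^ (m + 1)) : n ≤ m := by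
  have h1 : κ * a ^ n < κ * a ^ (m + 1) := lt_of_le_of_lt (le_trans hn hst) hm
  have h2 : a ^ n < a ^ (m + 1) := lt_of_mul_lt_mul_left h1 hκ.le
  have h3 := (zpow_lt_zpow_iff_right₀ ha).mp h2
  omega

/-- relations between the parameters -/
structure Par (a b d κ : ℝ) : Prop where
  ha : 1 < a
  hab : a ^ 2 * b = 1
  hb : 0 < b
  hb1 : b < 1
  hd : 0 < d
  hκ : 0 < κ
  hL : κ * (a - 1) = 2 + 2 * b * d

/-- the trajectory -/
noncomputable def S (a b d κ t : ℝ) : ℝ :=
  open Classical in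
  if h : ∃ n : ℤ, κ * a ^ n ≤ t ∧ t < κ * a ^ (n + 1) then
    (-1) ^ h.choose * (a ^ h.choose * E b d (t / a ^ h.choose - κ)) else 0

theorem S_eq (P : Par a b d κ) {t : ℝ} {n : ℤ} (h1 : κ * a ^ n ≤ t) (h2 : t < κ * a ^ (n + 1)) :
    S a b d κ t = (-1) ^ n * (a ^ n * E b d (t / a ^ n - κ)) := by
  have h : ∃ n : ℤ, κ * a ^ n ≤ t ∧ t < κ * a ^ (n + 1) := ⟨n, h1, h2⟩
  have hn : h.choose = n := by
    apply le_antisymm
    · exact idx_le P.ha P.hκ le_rfl h.choose_spec.1 h2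
    · exact idx_le P.ha P.hκ le_rfl h1 h.choose_spec.2
  unfold S
  rw [dif_pos h, hn]

theorem S_nonpos (P : Par a b d κ) {t : ℝ} (ht : t ≤ 0) : S a b d κ t = 0 := by
  have h : ¬ ∃ n : ℤ, κ * a ^ n ≤ t ∧ t < κ * a ^ (n + 1) := by
    rintro ⟨n, h1, _⟩
    have := mul_pos P.hκ (zpow_pos (lt_trans zero_lt_one P.ha) n)
    linarith
  unfold S
  rw [dif_neg h]

theorem abs_neg_one_zpow (n : ℤ) : |(-1 : ℝ) ^ n| = 1 := by
  rw [abs_zpow, abs_neg, abs_one, one_zpow]

theorem u_bounds (P : Par a b d κ) {t : ℝ} {n : ℤ} (h1 : κ * a ^ n ≤ t)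
    (h2 : t < κ * a ^ (n + 1)) : 0 ≤ t / a ^ n - κ ∧ t / a ^ n - κ < 2 + 2 * b * d := by
  have ha0 : 0 < a := lt_trans zero_lt_one P.ha
  have hn := zpow_pos ha0 n
  have hL := P.hL
  constructor
  · rw [sub_nonneg, le_div_iff₀ hn]; exact h1
  · rw [zpow_add_one₀ ha0.ne'] at h2
    have : t / a ^ n < κ * a := by
      rw [div_lt_iff₀ hn]; linarith
    linarith

theorem abs_S (P : Par a b d κ) {t : ℝ} {n : ℤ} (h1 : κ * a ^ n ≤ t) (h2 : t < κ * a ^ (n + 1)) :
    |S a b d κ t| = a ^ n * E b d (t / a ^ n - κ) := by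
  have ha0 : 0 < a := lt_trans zero_lt_one P.ha
  have hn := zpow_pos ha0 n
  obtain ⟨hu1, hu2⟩ := u_bounds P h1 h2
  rw [S_eq P h1 h2, abs_mul, abs_neg_one_zpow, one_mul,
    abs_of_nonneg (mul_nonneg hn.le (E_nonneg P.hb P.hd hu1 hu2.le))]

theorem abs_S_le (P : Par a b d κ) {t : ℝ} {n : ℤ} (h1 : κ * a ^ n ≤ t)
    (h2 : t < κ * a ^ (n + 1)) : |S a b d κ t| ≤ t - κ * a ^ n ∧
      |S a b d κ t| ≤ κ * a ^ (n + 1) - t := by
  have ha0 : 0 < a := lt_trans zero_lt_one P.ha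
  have hn := zpow_pos ha0 n
  have hL := P.hL
  rw [abs_S P h1 h2]
  constructor
  · calc a ^ n * E b d (t / a ^ n - κ) ≤ a ^ n * (t / a ^ n - κ) :=
        mul_le_mul_of_nonneg_left (E_le P.hb P.hd _) hn.le
      _ = t - κ * a ^ n := by field_simp
  · calc a ^ n * E b d (t / a ^ n - κ) ≤ a ^ n * (2 + 2 * b * d - (t / a ^ n - κ)) :=
        mul_le_mul_of_nonneg_left (E_le' _) hn.le
      _ = κ * a ^ (n + 1) - t := by
        rw [← hL, zpow_add_one₀ ha0.ne']; field_simp; ring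

theorem S_traj (P : Par a b d κ) : IsTrajectory (S a b d κ) := by
  have ha0 : 0 < a := lt_trans zero_lt_one P.ha
  refine ⟨S_nonpos P le_rfl, ?_⟩
  have key : ∀ s t : ℝ, 0 ≤ s → s ≤ t → |S a b d κ s - S a b d κ t| ≤ t - s := by
    intro s t hs hst
    rcases hs.eq_or_lt with h0 | hs0
    · rw [← h0, S_nonpos P le_rfl, zero_sub, abs_neg, sub_zero]
      rcases (h0 ▸ hst : (0:ℝ) ≤ t).eq_or_lt with h0' | ht0
      · rw [← h0', S_nonpos P le_rfl]; simp
      · obtain ⟨n, h1, h2⟩ := exists_idx P.ha P.hκ t ht0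
        have := (abs_S_le P h1 h2).1
        have := mul_pos P.hκ (zpow_pos ha0 n)
        linarith
    · have ht0 := lt_of_lt_of_le hs0 hst
      obtain ⟨m, m1, m2⟩ := exists_idx P.ha P.hκ s hs0
      obtain ⟨n, n1, n2⟩ := exists_idx P.ha P.hκ t ht0
      have hmn : m ≤ n := idx_le P.ha P.hκ hst m1 n2
      rcases hmn.eq_or_lt with h | h
      · subst h
        rw [S_eq P m1 m2, S_eq P n1 n2, ← mul_sub, ← mul_sub, abs_mul, abs_neg_one_zpow, one_mul,
          abs_mul, abs_of_pos (zpow_pos ha0 m)]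
        have hE := E_lip b d (s / a ^ m - κ) (t / a ^ m - κ)
        have e1 : |s / a ^ m - κ - (t / a ^ m - κ)| = (t - s) / a ^ m := by
          rw [show s / a ^ m - κ - (t / a ^ m - κ) = -((t - s) / a ^ m) by ring, abs_neg,
            abs_of_nonneg (div_nonneg (by linarith) (zpow_pos ha0 m).le)]
        rw [e1] at hE
        calc a ^ m * |E b d (s / a ^ m - κ) - E b d (t / a ^ m - κ)|
            ≤ a ^ m * ((t - s) / a ^ m) := mul_le_mul_of_nonneg_left hE (zpow_pos ha0 m).le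
          _ = t - s := by
            have := (zpow_pos ha0 m).ne'
            field_simp
      · have b1 := (abs_S_le P m1 m2).2
        have b2 := (abs_S_le P n1 n2).1
        have h3 : a ^ (m + 1) ≤ a ^ n := (zpow_le_zpow_iff_right₀ P.ha).mpr (by omega)
        have h4 := mul_le_mul_of_nonneg_left h3 P.hκ.le
        calc |S a b d κ s - S a b d κ t| ≤ |S a b d κ s| + |S a b d κ t| := abs_sub _ _
          _ ≤ t - s := by linarith
  intro s t hs ht
  rcases le_total s t with h | h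
  · rw [abs_sub_comm s t, abs_of_nonneg (by linarith : 0 ≤ t - s)]
    exact key s t hs h
  · rw [abs_of_nonneg (by linarith : 0 ≤ s - t), abs_sub_comm]
    exact key t s ht h

theorem abs_S_le_self (P : Par a b d κ) {t : ℝ} (ht : 0 ≤ t) : |S a b d κ t| ≤ t := by
  have h := (S_traj P).2 t 0 ht le_rfl
  rw [(S_traj P).1, sub_zero, sub_zero, abs_of_nonneg ht] at h
  exact h

theorem fin_level (P : Par a b d κ) {H : ℝ} (hH : H ≠ 0) (B : ℝ) :
    {t : ℝ | 0 ≤ t ∧ t ≤ B ∧ S a b d κ t = H}.Finite := by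
  have ha0 : 0 < a := lt_trans zero_lt_one P.ha
  have hpos : 0 < |H| := abs_pos.mpr hH
  rcases lt_or_ge B |H| with hB | hB
  · convert Set.finite_empty using 1
    ext t
    simp only [Set.mem_ofPred_eq, Set.mem_empty_iff_false, iff_false]
    rintro ⟨h0, h1, h2⟩
    have := abs_S_le_self P h0
    rw [h2] at this
    linarith
  obtain ⟨n0, c1, c2⟩ := exists_idx P.ha P.hκ |H| hpos
  obtain ⟨n1, e1, e2⟩ := exists_idx P.ha P.hκ B (lt_of_lt_of_le hpos hB)
  set Z : Finset ℝ := (Finset.Icc n0 n1).biUnion (fun n =>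
    {a ^ n * (κ + |H| / a ^ n), a ^ n * (κ + (2 * b * (1 + d) - |H| / a ^ n)),
      a ^ n * (κ + (|H| / a ^ n + 2 * b * d)), a ^ n * (κ + (2 + 2 * b * d - |H| / a ^ n))}) with hZ
  refine Set.Finite.subset (Finset.finite_toSet Z) ?_
  rintro t ⟨h0, h1, h2⟩
  have ht : |H| ≤ t := by
    have := abs_S_le_self P h0
    rwa [h2] at this
  obtain ⟨n, f1, f2⟩ := exists_idx P.ha P.hκ t (lt_of_lt_of_le hpos ht)
  have hn : n ∈ Finset.Icc n0 n1 :=
    Finset.mem_Icc.mpr ⟨idx_le P.ha P.hκ ht c1 f2, idx_le P.ha P.hκ h1 f1 e2⟩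
  have hp := zpow_pos ha0 n
  have h3 := abs_S P f1 f2
  rw [h2] at h3
  have h4 : E b d (t / a ^ n - κ) = |H| / a ^ n := by
    rw [h3]; field_simp
  have h5 : t = a ^ n * (κ + (t / a ^ n - κ)) := by field_simp; ring
  rw [hZ]
  simp only [Finset.coe_biUnion, Set.mem_iUnion]
  refine ⟨n, hn, ?_⟩
  simp only [Finset.coe_insert, Finset.coe_singleton, Set.mem_insert_iff, Set.mem_singleton_iff]
  rcases E_mem b d (t / a ^ n - κ) with h | h | h | h <;> rw [h4] at h
  · left; rw [h]; exact h5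
  · right; left; rw [h]; rw [show (2 * b * (1 + d) - (2 * b * (1 + d) - (t / a ^ n - κ))) =
      t / a ^ n - κ by ring]; exact h5
  · right; right; left; rw [h]; rw [show (t / a ^ n - κ - 2 * b * d + 2 * b * d) =
      t / a ^ n - κ by ring]; exact h5
  · right; right; right; rw [h]; rw [show (2 + 2 * b * d - (2 + 2 * b * d - (t / a ^ n - κ))) =
      t / a ^ n - κ by ring]; exact h5

theorem S_adm (P : Par a b d κ) : Admissible (S a b d κ) := by
  intro H hH B
  refine (fin_level P hH B).subset ?_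
  rintro t ⟨⟨h0, h1, _⟩, h2⟩
  exact ⟨h0, h2, h1⟩

theorem visit_of_eq (P : Par a b d κ) {H : ℝ} (hH : H ≠ 0) {t : ℝ} (ht : 0 ≤ t)
    (h : S a b d κ t = H) : VisitStart (S a b d κ) H t := by
  refine ⟨ht, h, ?_⟩
  intro s hs hst
  by_contra hcon
  push Not at hcon
  have h1 : Icc s t ⊆ {r : ℝ | 0 ≤ r ∧ r ≤ t ∧ S a b d κ r = H} := by
    intro r hr
    exact ⟨le_trans hs hr.1, hr.2, hcon r hr⟩
  exact (Set.Icc_infinite hst) ((fin_level P hH t).subset h1)

/-- value of the trajectory in the `m`-th excursion -/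
theorem S_at (P : Par a b d κ) (m : ℤ) {u : ℝ} (hu : 0 ≤ u) (hu' : u < 2 + 2 * b * d) :
    S a b d κ (a ^ m * (κ + u)) = (-1) ^ m * (a ^ m * E b d u) := by
  have ha0 : 0 < a := lt_trans zero_lt_one P.ha
  have hp := zpow_pos ha0 m
  have hL := P.hL
  have h1 : κ * a ^ m ≤ a ^ m * (κ + u) := by nlinarith
  have h2 : a ^ m * (κ + u) < κ * a ^ (m + 1) := by
    rw [zpow_add_one₀ ha0.ne']
    have : κ + u < κ * a := by linarith
    nlinarith
  rw [S_eq P h1 h2]
  congr 3
  field_simp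
  ring

variable (a b d κ) in
/-- the generic sequence of visits -/
noncomputable def tau (x h : ℝ) (n : ℕ) : ℝ :=
  κ * x * a ^ n + (-1) ^ n * h + (if n = 0 then 2 * b * d * x else 0)

theorem neg_one_pow_mul_le {h : ℝ} (hh : 0 < h) (n : ℕ) : (-1 : ℝ) ^ n * h ≤ h ∧
    -h ≤ (-1 : ℝ) ^ n * h := by
  rcases neg_one_pow_eq_or ℝ n with e | e <;> rw [e] <;> constructor <;> linarith

theorem tau_succ_lt (P : Par a b d κ) {x h : ℝ} (hx : 0 < x) (hh : 0 < h) (hhx : h ≤ x) (n : ℕ)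
    (hn : n ≠ 0) : tau a b d κ x h n < tau a b d κ x h (n + 1) := by
  unfold tau
  rw [if_neg hn, if_neg (Nat.succ_ne_zero n), pow_succ, pow_succ]
  have h1 := (neg_one_pow_mul_le hh n).1
  have h2 : 1 ≤ a ^ n := one_le_pow₀ P.ha.le
  have hL := P.hL
  have hbd := mul_pos P.hb P.hd
  have h3 : κ * x * (a ^ n * a) - κ * x * a ^ n = (2 + 2 * b * d) * (x * a ^ n) := by
    rw [← hL]; ring
  have h4 : x ≤ x * a ^ n := by nlinarith
  have h5 : 2 * h < (2 + 2 * b * d) * (x * a ^ n) := by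
    have : 0 < x * a ^ n := lt_of_lt_of_le hx h4
    nlinarith
  nlinarith

theorem tau_zero_lt (P : Par a b d κ) {x h : ℝ} (hhx : h < x) :
    tau a b d κ x h 0 < tau a b d κ x h 1 := by
  unfold tau
  rw [if_pos rfl, if_neg one_ne_zero]
  have hL := P.hL
  simp only [pow_zero, pow_one, mul_one, one_mul, add_zero]
  have h3 : κ * x * a - κ * x = (2 + 2 * b * d) * x := by
    rw [← hL]; ring
  nlinarith

theorem tau_value (P : Par a b d κ) {H : ℝ} (hH : H ≠ 0) {i : ℤ} (hi : (-1 : ℝ) ^ i * |H| = H)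
    (h1 : b * a ^ i < |H|) (h2 : |H| ≤ a ^ i) (n : ℕ) :
    S a b d κ (tau a b d κ (a ^ i) |H| n) = H := by
  have ha0 : 0 < a := lt_trans zero_lt_one P.ha
  have hpos : 0 < |H| := abs_pos.mpr hH
  have hx := zpow_pos ha0 i
  have hbd := mul_pos P.hb P.hd
  have hb := P.hb
  have hb1 := P.hb1
  have hL := P.hL
  rcases Nat.even_or_odd' n with ⟨k, hk | hk⟩
  · rcases Nat.eq_zero_or_pos k with hk0 | hkpos
    · subst hk0
      have hn0 : n = 0 := by omega
      subst hn0
      have e : tau a b d κ (a ^ i) |H| 0 = a ^ i * (κ + (|H| / a ^ i + 2 * b * d)) := by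
        unfold tau
        rw [if_pos rfl]
        field_simp
        ring
      have y1 : b ≤ |H| / a ^ i := by rw [le_div_iff₀ hx]; exact h1.le
      have y2 : |H| / a ^ i ≤ 1 := by rw [div_le_one hx]; exact h2
      rw [e, S_at P i (by linarith) (by linarith),
        E3 P.hb P.hb1 P.hd (by linarith) (by linarith)]
      rw [show |H| / a ^ i + 2 * b * d - 2 * b * d = |H| / a ^ i by ring]
      rw [show a ^ i * (|H| / a ^ i) = |H| by field_simp]
      exact hi
    · have hn0 : n ≠ 0 := by omega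
      have hs1 : (-1 : ℝ) ^ n = 1 := by rw [hk, pow_mul, neg_one_sq, one_pow]
      have hpm : a ^ (i + (n : ℤ)) = a ^ i * a ^ n := by
        rw [zpow_add₀ ha0.ne', zpow_natCast]
      have hxm := zpow_pos ha0 (i + (n : ℤ))
      have e : tau a b d κ (a ^ i) |H| n =
          a ^ (i + (n : ℤ)) * (κ + |H| / a ^ (i + (n : ℤ))) := by
        unfold tau
        rw [if_neg hn0, hs1, mul_add, mul_div_cancel₀ _ hxm.ne', hpm]
        ring
      have hsign : (-1 : ℝ) ^ (i + (n : ℤ)) = (-1) ^ i := by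
        rw [zpow_add₀ (by norm_num), zpow_natCast, hs1, mul_one]
      have y2 : |H| / a ^ (i + (n : ℤ)) ≤ b := by
        rw [div_le_iff₀ hxm, hpm]
        have h3 : a ^ 2 ≤ a ^ n := pow_le_pow_right₀ P.ha.le (by omega)
        have h4 : 1 ≤ b * a ^ n := by
          rw [← P.hab]; nlinarith
        nlinarith
      have y3 : 0 ≤ |H| / a ^ (i + (n : ℤ)) := by positivity
      rw [e, S_at P _ y3 (by linarith), E1 P.hb P.hb1 P.hd (by nlinarith) (by linarith), hsign,
        mul_div_cancel₀ _ hxm.ne']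
      exact hi
  · have hn0 : n ≠ 0 := by omega
    set m : ℤ := i + ((2 * k : ℕ) : ℤ) with hm
    have hpm : a ^ m = a ^ i * a ^ (2 * k) := by
      rw [hm, zpow_add₀ ha0.ne', zpow_natCast]
    have hxm := zpow_pos ha0 m
    have e : tau a b d κ (a ^ i) |H| n =
        a ^ m * (κ + (2 + 2 * b * d - |H| / a ^ m)) := by
      unfold tau
      rw [if_neg hn0, hk, ← hL]
      rw [show a ^ m * (κ + (κ * (a - 1) - |H| / a ^ m)) = κ * a * a ^ m - a ^ m * (|H| / a ^ m)
        by ring, mul_div_cancel₀ _ hxm.ne', hpm, pow_succ, pow_succ, pow_mul (-1 : ℝ), neg_one_sq,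
        one_pow]
      ring
    have hsign : (-1 : ℝ) ^ m = (-1) ^ i := by
      rw [hm, zpow_add₀ (by norm_num), zpow_natCast, pow_mul, neg_one_sq, one_pow, mul_one]
    have y2 : |H| / a ^ m ≤ 1 := by
      rw [div_le_one hxm, hpm]
      have h3 : 1 ≤ a ^ (2 * k) := one_le_pow₀ P.ha.le
      nlinarith
    have y3 : 0 < |H| / a ^ m := by positivity
    rw [e, S_at P _ (by linarith) (by linarith), E4 P.hb P.hb1 P.hd (by linarith), hsign]
    rw [show 2 + 2 * b * d - (2 + 2 * b * d - |H| / a ^ m) = |H| / a ^ m by ring,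
      mul_div_cancel₀ _ hxm.ne']
    exact hi

/-- the two extra early visits for points just beyond the previous turning point -/
theorem extra_values (P : Par a b d κ) {H : ℝ} {i : ℤ} (hi : (-1 : ℝ) ^ i * |H| = H)
    (h1 : b * a ^ i < |H|) (h2 : |H| < b * (1 + d) * a ^ i) (h3 : |H| ≤ a ^ i) :
    S a b d κ (κ * a ^ i + |H|) = H ∧
    S a b d κ (κ * a ^ i + (2 * b * (1 + d) * a ^ i - |H|)) = H := by
  have ha0 : 0 < a := lt_trans zero_lt_one P.ha
  have hx := zpow_pos ha0 i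
  have hbd := mul_pos P.hb P.hd
  have hb := P.hb
  have hb1 := P.hb1
  have y1 : b < |H| / a ^ i := by rw [lt_div_iff₀ hx]; exact h1
  have y2 : |H| / a ^ i < b * (1 + d) := by rw [div_lt_iff₀ hx]; exact h2
  have y3 : |H| / a ^ i ≤ 1 := by rw [div_le_one hx]; exact h3
  have e0 : a ^ i * (|H| / a ^ i) = |H| := by field_simp
  constructor
  · have e : κ * a ^ i + |H| = a ^ i * (κ + |H| / a ^ i) := by rw [mul_add, e0]; ring
    rw [e, S_at P i (by linarith) (by linarith), E1 P.hb P.hb1 P.hd (by linarith) (by linarith), e0]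
    exact hi
  · have e : κ * a ^ i + (2 * b * (1 + d) * a ^ i - |H|) =
        a ^ i * (κ + (2 * b * (1 + d) - |H| / a ^ i)) := by
      rw [show a ^ i * (κ + (2 * b * (1 + d) - |H| / a ^ i)) =
        κ * a ^ i + (2 * b * (1 + d) * a ^ i - a ^ i * (|H| / a ^ i)) by ring, e0]
    rw [e, S_at P i (by nlinarith) (by nlinarith), E2 P.hb P.hb1 P.hd (by linarith) (by linarith)]
    rw [show 2 * b * (1 + d) - (2 * b * (1 + d) - |H| / a ^ i) = |H| / a ^ i by ring, e0]
    exact hi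

end construction

section sums

theorem gsum {p κ : ℝ} (hp0 : 0 < p) (hp1 : p < 1) (X h : ℝ) :
    HasSum (fun n : ℕ => (1 - p) ^ n * p * (κ * X * (2 / (2 - p)) ^ n + (-1) ^ n * h))
      (κ * X * (2 - p) + h * (p / (2 - p))) := by
  have h2p : 0 < 2 - p := by linarith
  have r1 : |(1 - p) * (2 / (2 - p))| < 1 := by
    rw [abs_of_pos (_root_.mul_pos (by linarith) (by positivity)), ← mul_div_assoc,
      div_lt_one h2p]
    linarith
  have r2 : |-(1 - p)| < 1 := by rw [abs_neg, abs_lt]; constructor <;> linarith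
  have g1 := (hasSum_geometric_of_abs_lt_one r1).mul_left (κ * X * p)
  have g2 := (hasSum_geometric_of_abs_lt_one r2).mul_left (h * p)
  have e1 : (1 - (1 - p) * (2 / (2 - p)))⁻¹ = (2 - p) / p := by
    rw [inv_eq_iff_eq_inv, inv_div]; field_simp; ring
  have e2 : (1 - -(1 - p))⁻¹ = 1 / (2 - p) := by
    rw [inv_eq_one_div]; congr 1; ring
  have g := g1.add g2
  rw [e1, e2] at g
  have e3 : κ * X * p * ((2 - p) / p) + h * p * (1 / (2 - p)) =
      κ * X * (2 - p) + h * (p / (2 - p)) := by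
    field_simp
  rw [e3] at g
  refine g.congr_fun ?_
  intro n
  rw [mul_pow, neg_pow (1 - p) n]
  ring

theorem hasSum_tau {p κ b d : ℝ} (hp0 : 0 < p) (hp1 : p < 1) (x h : ℝ) :
    HasSum (fun n : ℕ => (1 - p) ^ n * p * tau (2 / (2 - p)) b d κ x h n)
      (κ * x * (2 - p) + h * (p / (2 - p)) + p * (2 * b * d * x)) := by
  have g := gsum (κ := κ) hp0 hp1 x h
  have g2 : HasSum (fun n : ℕ => if n = 0 then p * (2 * b * d * x) else 0)
      (p * (2 * b * d * x)) := hasSum_ite_eq 0 _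
  refine (g.add g2).congr_fun ?_
  intro n
  unfold tau
  by_cases hn : n = 0
  · rw [if_pos hn, if_pos hn, hn]; ring
  · rw [if_neg hn, if_neg hn]; ring

theorem costA {p b d κ : ℝ} (hp0 : 0 < p) (hp1 : p < 1) (P : Par (2 / (2 - p)) b d κ) {H : ℝ}
    (hH : H ≠ 0) {i : ℤ} (hi : (-1 : ℝ) ^ i * |H| = H)
    (h1 : b * (2 / (2 - p)) ^ i < |H|) (h2 : |H| < (2 / (2 - p)) ^ i) :
    expTime p (S (2 / (2 - p)) b d κ) H ≤ ENNReal.ofReal
      (κ * (2 / (2 - p)) ^ i * (2 - p) + |H| * (p / (2 - p)) +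
        p * (2 * b * d * (2 / (2 - p)) ^ i)) := by
  have ha0 : (0:ℝ) < 2 / (2 - p) := lt_trans zero_lt_one P.ha
  have hpos : 0 < |H| := abs_pos.mpr hH
  have hx := zpow_pos ha0 i
  have hmono : StrictMono (tau (2 / (2 - p)) b d κ ((2 / (2 - p)) ^ i) |H|) := by
    apply strictMono_nat_of_lt_succ
    intro n
    by_cases hn : n = 0
    · subst hn; exact tau_zero_lt P h2
    · exact tau_succ_lt P hx hpos h2.le n hn
  have hnn : ∀ n, 0 ≤ tau (2 / (2 - p)) b d κ ((2 / (2 - p)) ^ i) |H| n := by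
    intro n
    refine le_trans ?_ (hmono.monotone (Nat.zero_le n))
    unfold tau
    have := P.hκ
    have := P.hb
    have := P.hd
    positivity
  exact expTime_le hp0 hp1 hmono
    (fun n => visit_of_eq P hH (hnn n) (tau_value P hH hi h1 h2.le n))
    (hasSum_tau hp0 hp1 _ _)

/-- the sequence of visits with two early extra visits -/
noncomputable def sig (a b d κ x h : ℝ) : ℕ → ℝ
  | 0 => κ * x + h
  | 1 => κ * x + (2 * b * (1 + d) * x - h)
  | n + 2 => tau a b d κ x h n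

theorem costB {p b d κ : ℝ} (hp0 : 0 < p) (hp1 : p < 1) (P : Par (2 / (2 - p)) b d κ) {H : ℝ}
    (hH : H ≠ 0) {i : ℤ} (hi : (-1 : ℝ) ^ i * |H| = H)
    (h1 : b * (2 / (2 - p)) ^ i < |H|) (h2 : |H| < (2 / (2 - p)) ^ i)
    (h3 : |H| < b * (1 + d) * (2 / (2 - p)) ^ i) :
    expTime p (S (2 / (2 - p)) b d κ) H ≤ ENNReal.ofReal
      ((1 - p) ^ 2 * (κ * (2 / (2 - p)) ^ i * (2 - p) + |H| * (p / (2 - p)) +
        p * (2 * b * d * (2 / (2 - p)) ^ i)) + (p * (κ * (2 / (2 - p)) ^ i + |H|) +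
        (1 - p) * p * (κ * (2 / (2 - p)) ^ i +
          (2 * b * (1 + d) * (2 / (2 - p)) ^ i - |H|)))) := by
  have ha0 : (0:ℝ) < 2 / (2 - p) := lt_trans zero_lt_one P.ha
  have hpos : 0 < |H| := abs_pos.mpr hH
  have hx := zpow_pos ha0 i
  set x := (2 / (2 - p)) ^ i with hxd
  set h := |H| with hhd
  have hmono : StrictMono (sig (2 / (2 - p)) b d κ x h) := by
    apply strictMono_nat_of_lt_succ
    intro n
    match n with
    | 0 => show κ * x + h < κ * x + (2 * b * (1 + d) * x - h); linarith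
    | 1 =>
      show κ * x + (2 * b * (1 + d) * x - h) < tau (2 / (2 - p)) b d κ x h 0
      unfold tau
      rw [if_pos rfl, pow_zero, pow_zero]
      linarith
    | n + 2 =>
      show tau (2 / (2 - p)) b d κ x h n < tau (2 / (2 - p)) b d κ x h (n + 1)
      by_cases hn : n = 0
      · subst hn; exact tau_zero_lt P h2
      · exact tau_succ_lt P hx hpos h2.le n hn
  have hnn : ∀ n, 0 ≤ sig (2 / (2 - p)) b d κ x h n := by
    intro n
    refine le_trans ?_ (hmono.monotone (Nat.zero_le n))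
    show 0 ≤ κ * x + h
    have := P.hκ
    positivity
  have hval : ∀ n, S (2 / (2 - p)) b d κ (sig (2 / (2 - p)) b d κ x h n) = H := by
    obtain ⟨v0, v1⟩ := extra_values P hi h1 h3 h2.le
    intro n
    match n with
    | 0 => exact v0
    | 1 => exact v1
    | n + 2 => exact tau_value P hH hi h1 h2.le n
  refine expTime_le hp0 hp1 hmono (fun n => visit_of_eq P hH (hnn n) (hval n)) ?_
  have g := (hasSum_tau (κ := κ) (b := b) (d := d) hp0 hp1 x h).mul_left ((1 - p) ^ 2)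
  have g2 : HasSum (fun n => (1 - p) ^ (n + 2) * p * sig (2 / (2 - p)) b d κ x h (n + 2))
      ((1 - p) ^ 2 * (κ * x * (2 - p) + h * (p / (2 - p)) + p * (2 * b * d * x))) := by
    refine g.congr_fun ?_
    intro n
    show (1 - p) ^ (n + 2) * p * tau (2 / (2 - p)) b d κ x h n = _
    rw [pow_add]; ring
  have g3 := (hasSum_nat_add_iff (f := fun n => (1 - p) ^ n * p *
    sig (2 / (2 - p)) b d κ x h n) 2).mp g2
  rw [Finset.sum_range_succ, Finset.sum_range_one] at g3
  have e : p * (κ * x + h) + (1 - p) * p * (κ * x + (2 * b * (1 + d) * x - h)) =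
      (1 - p) ^ 0 * p * sig (2 / (2 - p)) b d κ x h 0 +
        (1 - p) ^ 1 * p * sig (2 / (2 - p)) b d κ x h 1 := by
    show _ = (1 - p) ^ 0 * p * (κ * x + h) + (1 - p) ^ 1 * p *
      (κ * x + (2 * b * (1 + d) * x - h))
    rw [pow_zero, pow_one, one_mul]
  rw [e]
  exact g3

theorem costC {p b d κ : ℝ} (hp0 : 0 < p) (hp1 : p < 1) (P : Par (2 / (2 - p)) b d κ) {H : ℝ}
    (hH : H ≠ 0) {i : ℤ} (hi : (-1 : ℝ) ^ i * |H| = H) (h2 : |H| = (2 / (2 - p)) ^ i) :
    expTime p (S (2 / (2 - p)) b d κ) H ≤ ENNReal.ofReal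
      (κ * |H| * 2 - |H| * (p / (2 - p))) := by
  have ha0 : (0:ℝ) < 2 / (2 - p) := lt_trans zero_lt_one P.ha
  have hpos : 0 < |H| := abs_pos.mpr hH
  have hx := zpow_pos ha0 i
  have h1 : b * (2 / (2 - p)) ^ i < |H| := by
    rw [h2]; have := P.hb1; nlinarith
  have hmono : StrictMono (fun n => tau (2 / (2 - p)) b d κ ((2 / (2 - p)) ^ i) |H| (n + 1)) := by
    apply strictMono_nat_of_lt_succ
    intro n
    exact tau_succ_lt P hx hpos h2.le (n + 1) (by omega)
  have hnn : ∀ n, 0 ≤ tau (2 / (2 - p)) b d κ ((2 / (2 - p)) ^ i) |H| (n + 1) := by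
    intro n
    refine le_trans ?_ (hmono.monotone (Nat.zero_le n))
    show 0 ≤ tau (2 / (2 - p)) b d κ ((2 / (2 - p)) ^ i) |H| (0 + 1)
    unfold tau
    rw [if_neg (by omega), zero_add, pow_one, pow_one, ← h2]
    have hL := P.hL
    have hκ := P.hκ
    have hbd := _root_.mul_pos P.hb P.hd
    have : κ * |H| * (2 / (2 - p)) = κ * |H| + (2 + 2 * b * d) * |H| := by
      rw [← hL]; ring
    rw [this]
    nlinarith
  refine expTime_le hp0 hp1 hmono
    (fun n => visit_of_eq P hH (hnn n) (tau_value P hH hi h1 h2.le (n + 1))) ?_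
  have g := gsum (κ := κ) hp0 hp1 (|H| * (2 / (2 - p))) (-|H|)
  have e : κ * (|H| * (2 / (2 - p))) * (2 - p) + -|H| * (p / (2 - p)) =
      κ * |H| * 2 - |H| * (p / (2 - p)) := by
    have : (2:ℝ) - p ≠ 0 := by linarith
    field_simp
    ring
  rw [e] at g
  refine g.congr_fun ?_
  intro n
  show (1 - p) ^ n * p * tau (2 / (2 - p)) b d κ ((2 / (2 - p)) ^ i) |H| (n + 1) = _
  unfold tau
  rw [if_neg (by omega), ← h2, pow_succ, pow_succ]
  ring

theorem exists_index {a : ℝ} (ha : 1 < a) {H : ℝ} (hH : H ≠ 0) :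
    ∃ i : ℤ, (-1 : ℝ) ^ i * |H| = H ∧ a ^ (i - 2) < |H| ∧ |H| ≤ a ^ i := by
  have ha0 : 0 < a := lt_trans zero_lt_one ha
  have ha2 : 1 < a ^ 2 := by nlinarith
  have hpos : 0 < |H| := abs_pos.mpr hH
  rcases lt_or_gt_of_ne hH with h | h
  · obtain ⟨k, k1, k2⟩ := exists_mem_Ioc_zpow (div_pos hpos ha0) ha2
    have e1 : (a ^ 2) ^ k = a ^ (2 * k) := by rw [zpow_mul]; norm_cast
    have e2 : (a ^ 2) ^ (k + 1) = a ^ (2 * (k + 1)) := by rw [zpow_mul]; norm_cast
    rw [e1, lt_div_iff₀ ha0, ← zpow_add_one₀ ha0.ne'] at k1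
    rw [e2, div_le_iff₀ ha0, ← zpow_add_one₀ ha0.ne'] at k2
    refine ⟨2 * (k + 1) + 1, ?_, ?_, k2⟩
    · rw [zpow_add_one₀ (by norm_num), zpow_mul, abs_of_neg h]
      norm_num
    · rw [show 2 * (k + 1) + 1 - 2 = 2 * k + 1 by ring]; exact k1
  · obtain ⟨k, k1, k2⟩ := exists_mem_Ioc_zpow hpos ha2
    have e1 : (a ^ 2) ^ k = a ^ (2 * k) := by rw [zpow_mul]; norm_cast
    have e2 : (a ^ 2) ^ (k + 1) = a ^ (2 * (k + 1)) := by rw [zpow_mul]; norm_cast
    rw [e1] at k1
    rw [e2] at k2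
    refine ⟨2 * (k + 1), ?_, ?_, k2⟩
    · rw [zpow_mul, abs_of_pos h]
      norm_num
    · rw [show 2 * (k + 1) - 2 = 2 * k by ring]; exact k1

end sums

section final

variable {p : ℝ}

noncomputable def bb (p : ℝ) : ℝ := ((2 - p) / 2) ^ 2
noncomputable def dd (p : ℝ) : ℝ := p * (1 - p) / 10
noncomputable def kk (p : ℝ) : ℝ := 2 * (2 - p) / p * (1 + bb p * dd p)

theorem par (hp0 : 0 < p) (hp1 : p < 1) : Par (2 / (2 - p)) (bb p) (dd p) (kk p) := by
  have h2 : 0 < 2 - p := by linarith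
  have hb : 0 < bb p := by unfold bb; positivity
  have hd : 0 < dd p := by
    unfold dd
    have : 0 < 1 - p := by linarith
    positivity
  refine ⟨?_, ?_, hb, ?_, hd, ?_, ?_⟩
  · rw [lt_div_iff₀ h2]; linarith
  · unfold bb; field_simp
  · unfold bb; nlinarith
  · unfold kk; positivity
  · unfold kk
    field_simp
    ring

/-- the guaranteed cost bound in the generic case -/
noncomputable def cA (p : ℝ) : ℝ :=
  (kk p * (2 - p) + p * (2 * bb p * dd p)) / (bb p * (1 + dd p)) + p / (2 - p)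

noncomputable def cB (p : ℝ) : ℝ :=
  ((1 - p) ^ 2 * (kk p * (2 - p) + p * (2 * bb p * dd p)) + p * kk p +
    (1 - p) * p * (kk p + 2 * bb p * (1 + dd p))) / bb p +
    ((1 - p) ^ 2 * (p / (2 - p)) + p - (1 - p) * p)

noncomputable def cC (p : ℝ) : ℝ := 2 * kk p - p / (2 - p)

theorem cA_lt (hp0 : 0 < p) (hp1 : p < 1) : cA p < p / (2 - p) + 8 / p := by
  have P := par hp0 hp1
  have hb := P.hb
  have hd := P.hd
  unfold cA
  rw [add_comm (p / (2 - p))]
  apply add_lt_add_left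
  have h1 : kk p * (2 - p) = 8 / p * bb p * (1 + bb p * dd p) := by
    unfold kk bb; field_simp; ring
  rw [div_lt_iff₀ (by positivity), h1]
  have h2 : 8 / p * bb p * (1 + bb p * dd p) + p * (2 * bb p * dd p) =
      bb p * (8 / p + dd p * (8 / p * bb p + 2 * p)) := by ring
  have h3 : 8 / p * (bb p * (1 + dd p)) = bb p * (8 / p + dd p * (8 / p)) := by ring
  rw [h2, h3]
  apply mul_lt_mul_of_pos_left _ hb
  have h4 : 8 / p * bb p + 2 * p < 8 / p := by
    have : 8 / p - (8 / p * bb p + 2 * p) = 8 / p * (1 - bb p - p ^ 2 / 4) := by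
      field_simp; ring
    have h5 : 0 < 1 - bb p - p ^ 2 / 4 := by unfold bb; nlinarith
    have h6 : 0 < 8 / p * (1 - bb p - p ^ 2 / 4) := by positivity
    linarith
  nlinarith

theorem cC_lt (hp0 : 0 < p) (hp1 : p < 1) : cC p < p / (2 - p) + 8 / p := by
  have P := par hp0 hp1
  have hb := P.hb
  have hb1 := P.hb1
  have hd := P.hd
  unfold cC kk
  have h0 : 0 < p / (2 - p) := div_pos hp0 (by linarith)
  have h1 : 2 * (2 * (2 - p) / p * (1 + bb p * dd p)) = (8 / p - 4) * (1 + bb p * dd p) := by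
    field_simp; ring
  rw [h1]
  have h2 : 8 / p * dd p < 1 := by
    unfold dd
    rw [show 8 / p * (p * (1 - p) / 10) = 8 * (1 - p) / 10 by field_simp]
    linarith
  have h3 : 8 / p * (bb p * dd p) ≤ 8 / p * dd p := by
    apply mul_le_mul_of_nonneg_left _ (by positivity)
    nlinarith
  have h4 : 0 < bb p * dd p := _root_.mul_pos hb hd
  nlinarith

theorem cB_lt (hp0 : 0 < p) (hp1 : p < 1) : cB p < p / (2 - p) + 8 / p := by
  have P := par hp0 hp1
  have hb := P.hb
  have hb1 := P.hb1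
  have hd := P.hd
  have h2 : 0 < 2 - p := by linarith
  have hq : 0 < 1 - p := by linarith
  have e1 : cB p = 8 + p * (2 - p) + (1 - p) ^ 2 * (8 / p + p / (2 - p)) +
      dd p * (8 * bb p + 2 * p * (1 - p) + 2 * p * (1 - p) ^ 2 +
        (1 - p) ^ 2 * (8 / p) * bb p) := by
    unfold cB
    have hk : kk p = 8 / (p * (2 - p)) * bb p * (1 + bb p * dd p) := by
      unfold kk bb; field_simp; ring
    rw [hk]
    field_simp
    ring
  have e2 : p / (2 - p) + 8 / p - (8 + p * (2 - p) + (1 - p) ^ 2 * (8 / p + p / (2 - p))) =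
      2 * (1 - p) * (4 - p) := by
    field_simp; ring
  have e3 : dd p * (8 * bb p + 2 * p * (1 - p) + 2 * p * (1 - p) ^ 2 +
        (1 - p) ^ 2 * (8 / p) * bb p) ≤ dd p * (8 + 2 + 2 + 8 / p) := by
    apply mul_le_mul_of_nonneg_left _ hd.le
    have a1 : 2 * p * (1 - p) ≤ 2 := by nlinarith
    have a2 : 2 * p * (1 - p) ^ 2 ≤ 2 := by
      have : (1 - p) ^ 2 ≤ 1 := by nlinarith
      nlinarith
    have a3 : (1 - p) ^ 2 * (8 / p) * bb p ≤ 8 / p := by
      have t1 : (1 - p) ^ 2 ≤ 1 := by nlinarith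
      have t2 : 0 < 8 / p := by positivity
      have t3 : (1 - p) ^ 2 * bb p ≤ 1 := by nlinarith [sq_nonneg (1 - p)]
      nlinarith
    nlinarith
  have e4 : dd p * (8 + 2 + 2 + 8 / p) = (1 - p) * (12 * p + 8) / 10 := by
    unfold dd; field_simp; ring
  rw [e4] at e3
  rw [e1]
  nlinarith

theorem bound (hp0 : 0 < p) (hp1 : p < 1) {H : ℝ} (hH : H ≠ 0) :
    expTime p (S (2 / (2 - p)) (bb p) (dd p) (kk p)) H / ENNReal.ofReal |H| ≤
      ENNReal.ofReal (max (cA p) (max (cB p) (cC p))) := by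
  have P := par hp0 hp1
  have ha0 : (0:ℝ) < 2 / (2 - p) := lt_trans zero_lt_one P.ha
  have hb := P.hb
  have hb1 := P.hb1
  have hd := P.hd
  have hκ := P.hκ
  have h2p : 0 < 2 - p := by linarith
  have hq : 0 < 1 - p := by linarith
  obtain ⟨i, hi, i1, i2⟩ := exists_index P.ha hH
  have hx := zpow_pos ha0 i
  have i1' : bb p * (2 / (2 - p)) ^ i < |H| := by
    have : (2 / (2 - p)) ^ (i - 2) = bb p * (2 / (2 - p)) ^ i := by
      rw [zpow_sub₀ ha0.ne', div_eq_iff (zpow_pos ha0 2).ne']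
      have := P.hab
      have e : (2 / (2 - p)) ^ (2 : ℤ) = (2 / (2 - p)) ^ 2 := by norm_cast
      rw [e, mul_assoc, mul_comm ((2 / (2 - p)) ^ i), ← mul_assoc, mul_comm (bb p), this, one_mul]
    rw [← this]; exact i1
  have hpos : 0 < |H| := abs_pos.mpr hH
  rcases i2.eq_or_lt with hc | hlt
  · refine le_trans (ratio_le (c := cC p) hH (costC hp0 hp1 P hH hi hc) ?_)
      (ENNReal.ofReal_le_ofReal (le_max_of_le_right (le_max_right _ _)))
    unfold cC
    apply le_of_eq; ring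
  · by_cases h3 : |H| < bb p * (1 + dd p) * (2 / (2 - p)) ^ i
    · refine le_trans (ratio_le (c := cB p) hH (costB hp0 hp1 P hH hi i1' hlt h3) ?_)
        (ENNReal.ofReal_le_ofReal (le_max_of_le_right (le_max_left _ _)))
      unfold cB
      set x := (2 / (2 - p)) ^ i with hxd
      set C := (1 - p) ^ 2 * (kk p * (2 - p) + p * (2 * bb p * dd p)) + p * kk p +
        (1 - p) * p * (kk p + 2 * bb p * (1 + dd p)) with hC
      have hCpos : 0 ≤ C := by positivity
      have e1 : (1 - p) ^ 2 * (kk p * x * (2 - p) + |H| * (p / (2 - p)) +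
        p * (2 * bb p * dd p * x)) + (p * (kk p * x + |H|) +
        (1 - p) * p * (kk p * x + (2 * bb p * (1 + dd p) * x - |H|))) =
        C * x + ((1 - p) ^ 2 * (p / (2 - p)) + p - (1 - p) * p) * |H| := by
        rw [hC]; ring
      have hx2 : x ≤ |H| / bb p := by
        rw [le_div_iff₀ hb]; linarith
      have e2 : C * x ≤ C / bb p * |H| := by
        calc C * x ≤ C * (|H| / bb p) := mul_le_mul_of_nonneg_left hx2 hCpos
          _ = C / bb p * |H| := by ring
      rw [e1, add_mul]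
      linarith
    · have h4 : bb p * (1 + dd p) * (2 / (2 - p)) ^ i ≤ |H| := not_lt.mp h3
      refine le_trans (ratio_le (c := cA p) hH (costA hp0 hp1 P hH hi i1' hlt) ?_)
        (ENNReal.ofReal_le_ofReal (le_max_left _ _))
      unfold cA
      set x := (2 / (2 - p)) ^ i with hxd
      set C := kk p * (2 - p) + p * (2 * bb p * dd p) with hC
      have hCpos : 0 ≤ C := by positivity
      have e1 : kk p * x * (2 - p) + |H| * (p / (2 - p)) + p * (2 * bb p * dd p * x) =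
          C * x + (p / (2 - p)) * |H| := by
        rw [hC]; ring
      have hx2 : x ≤ |H| / (bb p * (1 + dd p)) := by
        rw [le_div_iff₀ (by positivity)]; linarith
      have e2 : C * x ≤ C / (bb p * (1 + dd p)) * |H| := by
        calc C * x ≤ C * (|H| / (bb p * (1 + dd p))) := mul_le_mul_of_nonneg_left hx2 hCpos
          _ = C / (bb p * (1 + dd p)) * |H| := by ring
      rw [e1, add_mul]
      linarith

end final

/-- For every `p ∈ (0,1)` there is an admissible trajectory `S` with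
`v(S) < p/(2-p) + 8/p`: the geometric trajectory is never minimax. -/
theorem result : ∀ p : ℝ, 0 < p → p < 1 →
    ∃ S : ℝ → ℝ, IsTrajectory S ∧ Admissible S ∧
      v p S < ENNReal.ofReal (p / (2 - p) + 8 / p) := by
  intro p hp0 hp1
  have P := par hp0 hp1
  refine ⟨S (2 / (2 - p)) (bb p) (dd p) (kk p), S_traj P, S_adm P, ?_⟩
  have h1 : v p (S (2 / (2 - p)) (bb p) (dd p) (kk p)) ≤
      ENNReal.ofReal (max (cA p) (max (cB p) (cC p))) := by
    unfold v
    exact iSup₂_le (fun H hH => bound hp0 hp1 hH)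
  refine lt_of_le_of_lt h1 ?_
  rw [ENNReal.ofReal_lt_ofReal_iff]
  · exact max_lt (cA_lt hp0 hp1) (max_lt (cB_lt hp0 hp1) (cC_lt hp0 hp1))
  · have : 0 < 2 - p := by linarith
    positivity

end Pool.Agent.Results.MP_61cfb3_pr.GeometricNotMinimax
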